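import Mathlib

/-!
Combinatorial core of the construction of a system with dense periodic points that is
transitive, not minimal and not Li-Yorke sensitive.
-/

open Filter Topology Set

namespace Pool.Agent.P.MP_6bd6f6_an

/-- The ambient space of arrays. -/
abbrev Arr : Type := ℕ × ℕ → Bool

/-- The shift in the first coordinate. -/
def sh (a : Arr) : Arr := fun c => a (c.1 + 1, c.2)

/-- The special array. -/
def xs : Arr := fun c => if c.2 = 0 then decide (c.1 = 0) else decide (2 ^ c.2 ∣ c.1)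

/-- Good arrays with phase `y`. -/
def Good (a : Arr) (y : ℕ) : Prop :=
  (∀ i l, a (i, l) = true → 2 ^ l ∣ y + i) ∧
  (∀ i k, a (i, 0) = true → 2 ^ k ∣ y + i → ∀ j ≤ k, ∀ l ≤ k, a (i + j, l) = xs (j, l))

/-- Good periodic arrays. -/
def PP : Set Arr :=
  {a | (∃ y, 0 < y ∧ Good a y) ∧ ∃ q, 0 < q ∧ ∀ i l, a (i + q, l) = a (i, l)}

lemma sh_iter (n : ℕ) (a : Arr) (i l : ℕ) : (sh^[n] a) (i, l) = a (i + n, l) := by
  induction n generalizing a i with
  | zero => simp
  | succ n ih =>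
    rw [Function.iterate_succ_apply, ih]
    simp [sh, add_assoc]

lemma continuous_sh : Continuous sh :=
  continuous_pi fun c => continuous_apply (c.1 + 1, c.2)

lemma sh_mem_PP {a : Arr} (ha : a ∈ PP) : sh a ∈ PP := by
  obtain ⟨⟨y, hy, h1, h2⟩, q, hq, hp⟩ := ha
  refine ⟨⟨y + 1, by omega, ?_, ?_⟩, q, hq, ?_⟩
  · intro i l h
    have := h1 (i + 1) l h
    rwa [show y + 1 + i = y + (i + 1) by omega]
  · intro i k h hk j hj l hl
    have := h2 (i + 1) k h (by rwa [show y + (i + 1) = y + 1 + i by omega]) j hj l hl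
    simpa [sh, add_assoc, add_comm, add_left_comm] using this
  · intro i l
    have := hp (i + 1) l
    simpa [sh, add_assoc, add_comm, add_left_comm] using this

lemma sh_iter_mem_PP {a : Arr} (ha : a ∈ PP) (n : ℕ) : sh^[n] a ∈ PP := by
  induction n with
  | zero => simpa
  | succ n ih => rw [Function.iterate_succ_apply']; exact sh_mem_PP ih

lemma periodic_of_mem_PP {a : Arr} (ha : a ∈ PP) : ∃ q, 0 < q ∧ sh^[q] a = a := by
  obtain ⟨-, q, hq, hp⟩ := ha
  refine ⟨q, hq, ?_⟩
  funext ⟨i, l⟩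
  rw [sh_iter, hp]

lemma zero_mem_PP : (fun _ => false : Arr) ∈ PP :=
  ⟨⟨1, one_pos, by simp, by simp⟩, 1, one_pos, fun _ _ => rfl⟩

/-- The glued array, before periodisation. -/
def glue0 (p q : Arr) (N M y n : ℕ) (j l : ℕ) : Bool :=
  if j ≤ N then p (j, l) else if n ≤ j ∧ j ≤ n + N then q (j - n, l)
  else decide (1 ≤ l ∧ l ≤ M ∧ 2 ^ l ∣ y + j)

lemma lt_of_pow_dvd {l M a : ℕ} (ha : 0 < a) (h : 2 ^ l ∣ a) (hM : a < 2 ^ M) : l < M := by
  have := Nat.le_of_dvd ha h
  exact (Nat.pow_lt_pow_iff_right (by norm_num : 1 < 2)).1 (lt_of_le_of_lt this hM)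

lemma xs_tail {y j0 j k l M : ℕ} (hk : 2 ^ k ∣ y + j0) (hj : 0 < j) (hl : l ≤ k) (hM : k ≤ M) :
    decide (1 ≤ l ∧ l ≤ M ∧ 2 ^ l ∣ y + (j0 + j)) = xs (j, l) := by
  have h1 : 2 ^ l ∣ y + j0 := (pow_dvd_pow 2 hl).trans hk
  unfold xs
  by_cases h0 : l = 0
  · simp [h0]; omega
  · simp only [h0, if_false]
    congr 1
    apply propext
    rw [← add_assoc, Nat.dvd_add_right h1]
    constructor
    · exact fun h => h.2.2
    · exact fun h => ⟨by omega, by omega, h⟩

/-- Gluing lemma. The glued array is moreover nonzero at some row `M ≥ M0`. -/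
lemma glue {p q : Arr} {yp yq : ℕ} (hyp : 0 < yp) (hyq : 0 < yq) (hp : Good p yp)
    (hq : Good q yq) (N M0 : ℕ) :
    ∃ r ∈ PP, ∃ n, (∀ i ≤ N, ∀ l, r (i, l) = p (i, l)) ∧
      (∀ i ≤ N, ∀ l, r (i + n, l) = q (i, l)) ∧ ∃ i M, M0 ≤ M ∧ r (i, M) = true := by
  set M := yp + yq + N + M0 with hM
  have hQ : M < 2 ^ M := Nat.lt_two_pow_self
  set Q := 2 ^ M with hQdef
  set n := 2 * Q + yq - yp with hn
  have hn' : yp + n = 2 * Q + yq := by omega
  have hdvd : ∀ l ≤ M, 2 ^ l ∣ Q := fun l hl => pow_dvd_pow 2 hl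
  have hmod : ∀ l ≤ M, ∀ i, (2 ^ l ∣ yp + i % (4 * Q) ↔ 2 ^ l ∣ yp + i) := by
    intro l hl i
    have h4 : 2 ^ l ∣ 4 * Q * (i / (4 * Q)) := Dvd.dvd.mul_right (Dvd.dvd.mul_left (hdvd l hl) 4) _
    have : yp + i = 4 * Q * (i / (4 * Q)) + (yp + i % (4 * Q)) := by
      have := Nat.div_add_mod i (4 * Q); omega
    rw [this, Nat.dvd_add_right h4]
  have hshift : ∀ l ≤ M, ∀ j, n ≤ j → (2 ^ l ∣ yp + j ↔ 2 ^ l ∣ yq + (j - n)) := by
    intro l hl j hj
    have h2 : 2 ^ l ∣ 2 * Q := Dvd.dvd.mul_left (hdvd l hl) 2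
    rw [show yp + j = 2 * Q + (yq + (j - n)) by omega, Nat.dvd_add_right h2]
  have haddmod : ∀ i j, i % (4 * Q) + j < 4 * Q → (i + j) % (4 * Q) = i % (4 * Q) + j := by
    intro i j h
    have hj : j < 4 * Q := by omega
    rw [Nat.add_mod, Nat.mod_eq_of_lt hj, Nat.mod_eq_of_lt h]
  refine ⟨fun c => glue0 p q N M yp n (c.1 % (4 * Q)) c.2, ⟨⟨yp, hyp, ?_, ?_⟩, 4 * Q, by omega, ?_⟩,
    n, ?_, ?_, ?_⟩
  · intro i l h
    simp only [glue0] at h
    split_ifs at h with h1 h2
    · have h3 := hp.1 _ _ h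
      have h4 : l < M := lt_of_pow_dvd (by omega) h3 (by omega)
      exact (hmod l h4.le i).1 h3
    · have h3 := hq.1 _ _ h
      have h4 : l < M := lt_of_pow_dvd (by omega) h3 (by omega)
      exact (hmod l h4.le i).1 ((hshift l h4.le _ h2.1).2 h3)
    · simp only [decide_eq_true_eq] at h
      exact (hmod l h.2.1 i).1 h.2.2
  · intro i k h hk j hj l hl
    simp only [glue0] at h
    split_ifs at h with h1 h2
    · have hkM : k < M := by
        by_contra hc
        have h5 : 2 ^ M ∣ yp + i := (pow_dvd_pow 2 (by omega)).trans hk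
        have h6 := (hmod M le_rfl i).2 h5
        have := Nat.le_of_dvd (by omega) h6
        omega
      have hk' := (hmod k hkM.le i).2 hk
      simp only
      rw [haddmod i j (by omega)]
      unfold glue0
      by_cases h7 : i % (4 * Q) + j ≤ N
      · rw [if_pos h7]; exact hp.2 _ k h hk' j hj l hl
      · rw [if_neg h7, if_neg (by omega)]
        exact xs_tail hk' (by omega) hl hkM.le
    · have hkM : k < M := by
        by_contra hc
        have h5 : 2 ^ M ∣ yp + i := (pow_dvd_pow 2 (by omega)).trans hk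
        have h6 := (hshift M le_rfl _ h2.1).1 ((hmod M le_rfl i).2 h5)
        have := Nat.le_of_dvd (by omega) h6
        omega
      have hk' := (hmod k hkM.le i).2 hk
      have hk'' := (hshift k hkM.le _ h2.1).1 hk'
      simp only
      rw [haddmod i j (by omega)]
      unfold glue0
      rw [if_neg (by omega)]
      by_cases h7 : i % (4 * Q) + j ≤ n + N
      · rw [if_pos ⟨by omega, h7⟩, show i % (4 * Q) + j - n = i % (4 * Q) - n + j by omega]
        exact hq.2 _ k h hk'' j hj l hl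
      · rw [if_neg (by omega)]
        exact xs_tail hk' (by omega) hl hkM.le
    · simp at h
  · intro i l
    simp
  · intro i hi l
    simp only
    rw [Nat.mod_eq_of_lt (by omega)]
    simp [glue0, hi]
  · intro i hi l
    simp only
    rw [Nat.mod_eq_of_lt (by omega)]
    unfold glue0
    rw [if_neg (by omega), if_pos ⟨by omega, by omega⟩]
    congr 2
    omega
  · refine ⟨4 * Q - yp, M, by omega, ?_⟩
    simp only
    rw [Nat.mod_eq_of_lt (by omega)]
    unfold glue0
    rw [if_neg (by omega), if_neg (by omega)]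
    simp only [decide_eq_true_eq]
    refine ⟨by omega, le_rfl, ?_⟩
    rw [show yp + (4 * Q - yp) = 4 * Q by omega]
    exact Dvd.intro_left 4 rfl

/-- Cylinder neighbourhoods. -/
lemma exists_cyl {U : Set Arr} (hU : IsOpen U) {p : Arr} (hp : p ∈ U) :
    ∃ N, ∀ r : Arr, (∀ i ≤ N, ∀ l ≤ N, r (i, l) = p (i, l)) → r ∈ U := by
  obtain ⟨I, u, hu, hsub⟩ := isOpen_pi_iff.1 hU p hp
  refine ⟨I.sup fun c => max c.1 c.2, fun r hr => hsub ?_⟩
  intro c hc
  have h1 : max c.1 c.2 ≤ I.sup fun c => max c.1 c.2 :=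
    Finset.le_sup (f := fun c : ℕ × ℕ => max c.1 c.2) hc
  have := hr c.1 (le_trans (le_max_left _ _) h1) c.2 (le_trans (le_max_right _ _) h1)
  rw [show r c = p c from this]
  exact (hu c hc).2

/-- An approximation of the special array. -/
def xap (M : ℕ) : Arr :=
  fun c => if c.2 = 0 then decide (c.1 = 0) else decide (2 ^ c.2 ∣ 2 ^ M + c.1)

lemma good_xap (M : ℕ) : Good (xap M) (2 ^ M) := by
  constructor
  · intro i l h
    unfold xap at h
    by_cases h0 : l = 0
    · simp [h0]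
    · simpa [h0] using h
  · intro i k h hk j hj l hl
    have hi : i = 0 := by simpa [xap] using h
    subst hi
    have h1 : 2 ^ l ∣ 2 ^ M := (pow_dvd_pow 2 hl).trans (by simpa using hk)
    unfold xap xs
    simp [Nat.dvd_add_right h1]

lemma xs_mem_closure : xs ∈ closure PP := by
  rw [mem_closure_iff]
  intro U hU hx
  obtain ⟨N, hN⟩ := exists_cyl hU hx
  obtain ⟨r, hr, n, h1, -, -⟩ :=
    glue (Nat.two_pow_pos N) (Nat.two_pow_pos N) (good_xap N) (good_xap N) N 0
  refine ⟨r, hN r fun i hi l hl => ?_, hr⟩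
  rw [h1 i hi l]
  unfold xap xs
  simp [Nat.dvd_add_right (pow_dvd_pow 2 hl)]

/-- The dichotomy near the special array. -/
lemma dichotomy {z : Arr} (hz : z ∈ closure PP) (h0 : z (0, 0) = true) (k : ℕ) :
    (∀ i, 2 ^ k ∣ i → z (i, k) = false) ∨ ∀ j ≤ k, ∀ l ≤ k, z (j, l) = xs (j, l) := by
  have hcl : IsClosed {z : Arr | z (0, 0) = false ∨ (∀ i, 2 ^ k ∣ i → z (i, k) = false) ∨
      ∀ j ≤ k, ∀ l ≤ k, z (j, l) = xs (j, l)} := by
    have hc : ∀ (c : ℕ × ℕ) (b : Bool), IsClosed {z : Arr | z c = b} := fun c b =>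
      isClosed_eq (continuous_apply c) continuous_const
    simp only [Set.ofPred_or, Set.ofPred_forall]
    refine (hc _ _).union (IsClosed.union ?_ ?_)
    · exact isClosed_iInter fun i => isClosed_iInter fun _ => hc _ _
    · exact isClosed_iInter fun j => isClosed_iInter fun _ => isClosed_iInter fun l =>
        isClosed_iInter fun _ => hc _ _
  have hsub : PP ⊆ {z : Arr | z (0, 0) = false ∨ (∀ i, 2 ^ k ∣ i → z (i, k) = false) ∨
      ∀ j ≤ k, ∀ l ≤ k, z (j, l) = xs (j, l)} := by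
    rintro a ⟨⟨y, -, h1, h2⟩, -⟩
    by_cases ha : a (0, 0) = true
    · right
      by_cases hy : 2 ^ k ∣ y
      · right
        intro j hj l hl
        simpa using h2 0 k ha (by simpa using hy) j hj l hl
      · left
        intro i hi
        by_contra hc
        have h3 := h1 i k (by simpa using hc)
        exact hy ((Nat.dvd_add_left hi).1 h3)
    · left; simpa using ha
  have := hcl.closure_subset_iff.2 hsub hz
  rcases this with h | h
  · rw [h0] at h; exact absurd h (by simp)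
  · exact h

/-- A point of the closure near the special array, other than it, stays away from it. -/
lemma stays_away {z : Arr} (hz : z ∈ closure PP) (h0 : z (0, 0) = true) (hne : z ≠ xs) :
    ∃ k, ∀ n, ∃ i ≤ 2 ^ k, (sh^[n] xs) (i, k) ≠ (sh^[n] z) (i, k) := by
  obtain ⟨⟨j, l⟩, hc⟩ := Function.ne_iff.1 hne
  refine ⟨j + l + 1, fun n => ?_⟩
  rcases dichotomy hz h0 (j + l + 1) with h | h
  · set Q := 2 ^ (j + l + 1) with hQ
    have hQpos : 0 < Q := Nat.two_pow_pos _
    have hd : Q ∣ Q - n % Q + n := by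
      have h1 := Nat.div_add_mod n Q
      have h2 := Nat.mod_lt n hQpos
      refine ⟨n / Q + 1, ?_⟩
      rw [mul_add]; omega
    refine ⟨Q - n % Q, by omega, ?_⟩
    rw [sh_iter, sh_iter, h _ hd]
    unfold xs
    simpa using hd
  · exact absurd (h j (by omega) l (by omega)) hc

/-- Periodic good arrays vanish in all high rows. -/
lemma high_rows {p : Arr} (hp : p ∈ PP) : ∃ M0, ∀ i M, M0 ≤ M → p (i, M) = false := by
  obtain ⟨⟨y, -, h1, -⟩, q, hq, hper⟩ := hp
  refine ⟨q, fun i M hM => ?_⟩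
  by_contra hc
  have hc' : p (i, M) = true := by simpa using hc
  have h2 := h1 i M hc'
  have h3 := h1 (i + q) M (by rw [hper]; exact hc')
  rw [← add_assoc, Nat.dvd_add_right h2] at h3
  have h4 := Nat.le_of_dvd hq h3
  have h5 : M < 2 ^ M := Nat.lt_two_pow_self
  omega

end Pool.Agent.P.MP_6bd6f6_an
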